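import Mathlib
import Pool.Agent.Zhu.SphFin

/-!
Measurable splittings of the sphere into three congruent pieces: for every isometry `ρ` and every
axis `u`, only countably many angles `t` can occur.
-/

set_option autoImplicit false

namespace Pool.Agent.Results.MP_8c2fb0_lc.GenericIsometries

open MeasureTheory Metric Set

/-- Euclidean space of dimension three. -/
abbrev E : Type := EuclideanSpace ℝ (Fin 3)

/-- The elements of `O_3`, i.e. the isometries of the unit sphere. -/
abbrev O3 : Type := E ≃ₗᵢ[ℝ] E

/-- The unit sphere. -/
def S2 : Set E := sphere 0 1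

/-- The surface measure of the unit sphere. -/
noncomputable def surface : Measure (sphere (0 : E) 1) := (volume : Measure E).toSphere

/-- Lebesgue measurability of a subset of the sphere: measurability for the completion of the
surface measure. -/
def LebesgueMeasurable (A : Set E) : Prop :=
  NullMeasurableSet ((↑) ⁻¹' A : Set (sphere (0 : E) 1)) surface

/-- The image `ρ A`. -/
def image (ρ : O3) (A : Set E) : Set E := ρ '' A

/-- `S²` splits into three measurable pieces `A`, `ρ A`, `τ A`. -/
def Splits (ρ τ : O3) : Prop :=
  ∃ A : Set E, A ⊆ S2 ∧ LebesgueMeasurable A ∧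
    Disjoint A (image ρ A) ∧ Disjoint A (image τ A) ∧ Disjoint (image ρ A) (image τ A) ∧
    A ∪ image ρ A ∪ image τ A = S2

/-- The vector product of `u` and `x`. -/
noncomputable def cross (u x : E) : E := WithLp.toLp 2 (crossProduct u.ofLp x.ofLp)

/-- The rotation about the unit vector `u` by the angle `t` (Rodrigues formula). -/
noncomputable def rotation (u : E) (t : ℝ) (x : E) : E :=
  Real.cos t • x + Real.sin t • cross u x + ((1 - Real.cos t) * inner ℝ u x) • u

/-- `τ` is the rotation about `u` by the angle `t`. -/
def IsRotation (τ : O3) (u : E) (t : ℝ) : Prop := ∀ x, τ x = rotation u t x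

/-- `τ` is minus the rotation about `u` by the angle `t`. -/
def IsNegRotation (τ : O3) (u : E) (t : ℝ) : Prop := ∀ x, τ x = -rotation u t x

theorem rotation_eq (u : E) (t : ℝ) (x : E) : rotation u t x = SphSplit.rot u t x := by
  have : cross u x = SphSplit.cr u x := by
    apply (WithLp.ofLp_injective 2)
    simp only [cross, SphSplit.cr, cross_apply]
  rw [rotation, SphSplit.rot, this]

/-- For every isometry `ρ` of the sphere and every axis `u`, for all but countably many angles `t`
the sphere has no measurable splitting `A`, `ρ A`, `τ A` where `τ` is the rotation about `u` by the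
angle `t` or minus this rotation. -/
theorem result (ρ : O3) (u : E) (_hu : u ∈ S2) :
    {t : ℝ | ∃ τ : O3, (IsRotation τ u t ∨ IsNegRotation τ u t) ∧ Splits ρ τ}.Countable := by
  refine (SphSplit.part1 ρ u).mono ?_
  rintro t ⟨τ, h, hs⟩
  refine ⟨τ, ?_, hs⟩
  rcases h with h | h
  · left; intro x; rw [h x, rotation_eq]
  · right; intro x; rw [h x, rotation_eq]

end Pool.Agent.Results.MP_8c2fb0_lc.GenericIsometries
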