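import Pool.Agent.Helper213.Div.Dense
import Pool.Agent.Helper213.Div.Path

/-!
# Measurable division of the 2-sphere into three congruent pieces: obstructions

A measurable division of the sphere into three congruent pieces is a partition into pieces `A`,
`ρ(A)`, `τ(A)` with `A` Lebesgue measurable and `ρ`, `τ` isometries.  We show that, even if null sets
are ignored, such a division forces the kernel of `g ↦ g + g ∘ ρ⁻¹ + g ∘ τ⁻¹` on polynomial
functions to be infinite dimensional, and one of countably many algebraic equations between the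
entries of `ρ` and `τ`; that for every fixed `ρ` no division exists for `τ` outside a meagre set
and outside a null set; and that none exists for explicit arithmetic families of pairs (for
instance for all pairs in a dense group of rational isometries).
-/

set_option autoImplicit false

open MeasureTheory Matrix Set Filter Topology

namespace Pool.Agent.Results.MP_8c2fb0_lc.MeagreArithmetic

/-- 3 by 3 real matrices. -/
abbrev M3 : Type := Matrix (Fin 3) (Fin 3) ℝ

/-- The unit sphere of `ℝ³`. -/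
abbrev S2 : Type := Metric.sphere (0 : EuclideanSpace ℝ (Fin 3)) 1

/-- Borel sets of the sphere. -/
instance borelS2 : MeasurableSpace S2 := Subtype.instMeasurableSpace

/-- Rotation invariant surface measure. -/
noncomputable def surf : Measure S2 := (volume : Measure (EuclideanSpace ℝ (Fin 3))).toSphere

/-- The orthogonal group (the isometries of the sphere), as a space of matrices. -/
def Iso3 : Type := {M : M3 // Mᵀ * M = 1}

/-- with the topology of matrices -/
instance : TopologicalSpace Iso3 := instTopologicalSpaceSubtype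

/-- `x = ρ y` for points `x`, `y` of the sphere. -/
def IsImage (ρ : M3) (y x : S2) : Prop := x.1 = WithLp.toLp 2 (ρ *ᵥ y.1.ofLp)

/-- The image `ρ(A)` of `A` under the linear map with matrix `ρ`. -/
def move (ρ : M3) (A : Set S2) : Set S2 := {x | ∃ y ∈ A, IsImage ρ y x}

/-- `A` is Lebesgue measurable, and `A`, `B`, `C` are, up to null sets, pairwise disjoint with
union the whole sphere. -/
def PartitionAE (A B C : Set S2) : Prop :=
  NullMeasurableSet A surf ∧ surf (A ∩ B) = 0 ∧ surf (A ∩ C) = 0 ∧ surf (B ∩ C) = 0 ∧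
    surf (A ∪ B ∪ C)ᶜ = 0

/-- `A` is Lebesgue measurable and `A`, `B`, `C` is a partition of the whole sphere. -/
def PartitionExactly (A B C : Set S2) : Prop :=
  NullMeasurableSet A surf ∧ Disjoint A B ∧ Disjoint A C ∧ Disjoint B C ∧ A ∪ B ∪ C = univ

/-- `A`, `ρ(A)`, `τ(A)` is, up to null sets, a partition of the sphere for some Lebesgue
measurable `A`. -/
def DividesAE (ρ τ : Iso3) : Prop := ∃ A : Set S2, PartitionAE A (move ρ.1 A) (move τ.1 A)

/-- `A`, `ρ(A)`, `τ(A)` is a partition of the sphere for some Lebesgue measurable `A`. -/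
def DividesExactly (ρ τ : Iso3) : Prop :=
  ∃ A : Set S2, PartitionExactly A (move ρ.1 A) (move τ.1 A)

/-- Polynomial functions on the sphere. -/
def IsPolynomial (g : S2 → ℝ) : Prop :=
  ∃ P : MvPolynomial (Fin 3) ℝ, ∀ x, g x = MvPolynomial.eval x.1.ofLp P

/-- `g` is a polynomial function with `g(x) + g(ρ⁻¹ x) + g(τ⁻¹ x) = 0` for all `x`. -/
def InKernel (ρ τ : Iso3) (g : S2 → ℝ) : Prop :=
  IsPolynomial g ∧ ∀ x y z : S2, IsImage ρ.1 y x → IsImage τ.1 z x → g x + g y + g z = 0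

/-- These functions form an infinite dimensional space. -/
def InfiniteKernel (ρ τ : Iso3) : Prop :=
  ∀ n, ∃ g : Fin n → S2 → ℝ, LinearIndependent ℝ g ∧ ∀ i, InKernel ρ τ (g i)

/-- The `d`-th tensor power of a matrix. -/
def tensorPow (d : ℕ) (G : M3) : Matrix (Fin d → Fin 3) (Fin d → Fin 3) ℝ :=
  fun i j => ∏ k, G (i k) (j k)

/-- `det(1 + ρ^⊗d + τ^⊗d) = 0` -/
def SingularAt (d : ℕ) (ρ τ : Iso3) : Prop := (1 + tensorPow d ρ.1 + tensorPow d τ.1).det = 0

/-- Squared norm of a quaternion. -/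
def quatNormSq (q : Fin 4 → ℝ) : ℝ := q 0 ^ 2 + q 1 ^ 2 + q 2 ^ 2 + q 3 ^ 2

/-- Numerators of the Euler-Rodrigues matrix of the rotation `x ↦ q x q⁻¹`. -/
def quatMatrix (q : Fin 4 → ℝ) : M3 :=
  !![q 0 ^ 2 + q 1 ^ 2 - q 2 ^ 2 - q 3 ^ 2, 2 * (q 1 * q 2 - q 0 * q 3), 2 * (q 1 * q 3 + q 0 * q 2);
     2 * (q 1 * q 2 + q 0 * q 3), q 0 ^ 2 - q 1 ^ 2 + q 2 ^ 2 - q 3 ^ 2, 2 * (q 2 * q 3 - q 0 * q 1);
     2 * (q 1 * q 3 - q 0 * q 2), 2 * (q 2 * q 3 + q 0 * q 1), q 0 ^ 2 - q 1 ^ 2 - q 2 ^ 2 + q 3 ^ 2]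

/-- `τ` is the rotation `x ↦ q x q⁻¹`. -/
def IsRotationOf (q : Fin 4 → ℝ) (τ : M3) : Prop := quatNormSq q • τ = quatMatrix q

/-- `1 + [g] + [h]` is left invertible in the algebra over `k` of the monoid of 3 by 3 matrices
over `k`. -/
def LeftInvertible {k : Type} [Field k] (g h : Matrix (Fin 3) (Fin 3) k) : Prop :=
  ∃ u : MonoidAlgebra k (Matrix (Fin 3) (Fin 3) k),
    u * (1 + MonoidAlgebra.single g 1 + MonoidAlgebra.single h 1) = 1

/-- `ρ` has entries in the subring `R` and reduces to `g` under `π`. -/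
def ReducesTo (R : Subring ℝ) {k : Type} [Field k] (π : R →+* k) (ρ : M3)
    (g : Matrix (Fin 3) (Fin 3) k) : Prop :=
  ∃ G : Matrix (Fin 3) (Fin 3) R, (∀ i j, (G i j : ℝ) = ρ i j) ∧ ∀ i j, π (G i j) = g i j

/-- For a ring homomorphism from some subring of `ℝ` containing all entries to some field, the
element `1 + [ρ] + [τ]` becomes left invertible. -/
def UnitReduction (ρ τ : Iso3) : Prop :=
  ∃ (R : Subring ℝ) (k : Type) (_ : Field k) (π : R →+* k) (g h : Matrix (Fin 3) (Fin 3) k),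
    ReducesTo R π ρ.1 g ∧ ReducesTo R π τ.1 h ∧ LeftInvertible g h

/-- `G` and `H` are congruent modulo 2. -/
def Congr2 (G H : Matrix (Fin 3) (Fin 3) ℤ) : Prop := ∀ i j, Even (G i j - H i j)

/-- `ρ = G / N` with `N` odd and `G` integral. -/
def IsFraction (ρ : M3) (N : ℕ) (G : Matrix (Fin 3) (Fin 3) ℤ) : Prop :=
  Odd N ∧ ∀ i j, (N : ℝ) * ρ i j = G i j

/-- Rational matrices with a common odd denominator, two of `ρ`, `τ`, `1` congruent modulo 2. -/
def CongruentModTwo (ρ τ : Iso3) : Prop :=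
  ∃ (N : ℕ) (G H : Matrix (Fin 3) (Fin 3) ℤ), IsFraction ρ.1 N G ∧ IsFraction τ.1 N H ∧
    (Congr2 G H ∨ Congr2 G 1 ∨ Congr2 H 1)

/-- Two of the matrices `G`, `H`, `1` agree up to sign. -/
def TwoAgree (G H : M3) : Prop := G = 1 ∨ H = 1 ∨ G = H ∨ G = -1 ∨ H = -1 ∨ G = -H

/-- A path all of whose matrix entries are real analytic. -/
def AnalyticPath (r : ℝ → Iso3) : Prop := ∀ i j t, AnalyticAt ℝ (fun t => (r t).1 i j) t

/-- Rational with odd denominator and congruent to `1` modulo 2. -/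
def OneModuloTwo (ρ : Iso3) : Prop :=
  ∃ (N : ℕ) (G : Matrix (Fin 3) (Fin 3) ℤ), IsFraction ρ.1 N G ∧ Congr2 G 1

open Pool.Agent.Helper213.Div in
theorem move_eq (M : Pool.Agent.Helper213.Div.O3) (A : Set S2) : move M.1 A = actH (isoE M) '' A := by
  ext y
  simp only [move, IsImage, Set.mem_ofPred_eq, Set.mem_image]
  constructor
  · rintro ⟨x, hx, hy⟩
    exact ⟨x, hx, by ext1; rw [actH_coe, isoE_apply, hy]⟩
  · rintro ⟨x, hx, rfl⟩
    exact ⟨x, hx, by rw [actH_coe, isoE_apply]⟩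

open Pool.Agent.Helper213.Div in
/-- underlying orthogonal matrix -/
def tO (ρ : Iso3) : Pool.Agent.Helper213.Div.O3 :=
  ⟨ρ.1, (Matrix.mem_orthogonalGroup_iff' (A := ρ.1)).2 ρ.2⟩

open Pool.Agent.Helper213.Div in
theorem noDiv (ρ τ : Iso3) (h : ∀ d, (Td d ρ.1 τ.1).det ≠ 0) : ¬ DividesAE ρ τ := by
  rintro ⟨A, hA, h1, h2, h3, h4⟩
  have e1 : move ρ.1 A = actH (isoE (tO ρ)) '' A := move_eq (tO ρ) A
  have e2 : move τ.1 A = actH (isoE (tO τ)) '' A := move_eq (tO τ) A
  rw [e1] at h1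
  rw [e2] at h2
  rw [e1, e2] at h3 h4
  refine no_split (isoE (tO ρ)) (isoE (tO τ)) ?_ A hA h1 h2 h3 ?_
  · intro d
    rw [mat_isoE, mat_isoE]; exact h d
  · rw [ae_iff]
    exact h4

open Pool.Agent.Helper213.Div in
theorem isPoly_iff (g : C(Pool.Agent.Helper213.Div.S2, ℝ)) :
    g ∈ Pool.Agent.Helper213.Div.alg ↔ IsPolynomial (fun x => g x) := by
  have hev : ∀ (P : MvPolynomial (Fin 3) ℝ) (x : Pool.Agent.Helper213.Div.S2),
      (MvPolynomial.aeval coord P : C(Pool.Agent.Helper213.Div.S2, ℝ)) x =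
        MvPolynomial.eval x.1.ofLp P := by
    intro P x
    induction P using MvPolynomial.induction_on with
    | C a => simp
    | add p q hp hq => simp only [map_add, ContinuousMap.add_apply, hp, hq]
    | mul_X p i hp =>
      simp only [map_mul, ContinuousMap.mul_apply, hp, MvPolynomial.aeval_X, MvPolynomial.eval_X]
      rfl
  unfold Pool.Agent.Helper213.Div.alg
  rw [Algebra.adjoin_range_eq_range_aeval]
  constructor
  · rintro ⟨P, hP⟩
    refine ⟨P, fun x => ?_⟩
    rw [← hev P x]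
    exact (congrArg (fun f : C(Pool.Agent.Helper213.Div.S2, ℝ) => f x) hP).symm
  · rintro ⟨P, hP⟩
    refine ⟨P, ?_⟩
    ext x
    exact (hev P x).trans (hP x).symm

open Pool.Agent.Helper213.Div in
/-- the kernel as a subspace of continuous functions -/
noncomputable def kerSub (ρ τ : Iso3) : Submodule ℝ C(Pool.Agent.Helper213.Div.S2, ℝ) where
  carrier := {g | g ∈ Pool.Agent.Helper213.Div.alg ∧ ∀ x y z : Pool.Agent.Helper213.Div.S2,
    IsImg ρ.1 y x → IsImg τ.1 z x → g x + g y + g z = 0}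
  add_mem' := by
    rintro g h ⟨hg, hg'⟩ ⟨hh, hh'⟩
    refine ⟨add_mem hg hh, fun x y z hy hz => ?_⟩
    have h1 := hg' x y z hy hz
    have h2 := hh' x y z hy hz
    simp only [ContinuousMap.add_apply]
    linarith
  zero_mem' := ⟨zero_mem _, fun x y z _ _ => by simp⟩
  smul_mem' := by
    rintro c g ⟨hg, hg'⟩
    refine ⟨Subalgebra.smul_mem _ hg c, fun x y z hy hz => ?_⟩
    have h1 := hg' x y z hy hz
    simp only [ContinuousMap.smul_apply, smul_eq_mul]
    rw [← mul_add, ← mul_add, h1, mul_zero]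

open Pool.Agent.Helper213.Div in
theorem infKer (ρ τ : Iso3) (h : DividesAE ρ τ) : InfiniteKernel ρ τ := by
  obtain ⟨A, hA, h1, h2, h3, h4⟩ := h
  have e1 : move ρ.1 A = actH (isoE (tO ρ)) '' A := move_eq (tO ρ) A
  have e2 : move τ.1 A = actH (isoE (tO τ)) '' A := move_eq (tO τ) A
  rw [e1] at h1
  rw [e2] at h2
  rw [e1, e2] at h3 h4
  have hinf : ¬ FiniteDimensional ℝ (kerSub ρ τ) := by
    refine kernel_infinite (tO ρ) (tO τ) A hA h1 h2 h3 ?_ (kerSub ρ τ) fun g => Iff.rfl
    rw [ae_iff]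
    exact h4
  intro n
  have hrank : (n : Cardinal) ≤ Module.rank ℝ (kerSub ρ τ) := by
    by_contra hcon
    push Not at hcon
    apply hinf
    exact Module.rank_lt_aleph0_iff.1 (hcon.trans (Cardinal.nat_lt_aleph0 n))
  obtain ⟨s, hs, hli⟩ := exists_finset_linearIndependent_of_le_rank hrank
  let e : Fin n ≃ s := (Finset.equivFinOfCardEq hs).symm
  let F : kerSub ρ τ →ₗ[ℝ] (S2 → ℝ) :=
    { toFun := fun g x => g.1 x
      map_add' := fun g h => by ext x; simp
      map_smul' := fun c g => by ext x; simp }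
  have hF : LinearMap.ker F = ⊥ := by
    rw [LinearMap.ker_eq_bot']
    intro g hg
    apply Subtype.ext
    ext x
    exact congrFun hg x
  refine ⟨fun i => F (e i).1, (hli.comp e e.injective).map' F hF, fun i => ?_⟩
  have hi := (e i).1.2
  exact ⟨(isPoly_iff _).1 hi.1, hi.2⟩

open Pool.Agent.Helper213.Div in
/-- comparison with the group in the library -/
def homeo : Iso3 ≃ₜ Pool.Agent.Helper213.Div.O3 where
  toFun ρ := ⟨ρ.1, (Matrix.mem_orthogonalGroup_iff' (A := ρ.1)).2 ρ.2⟩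
  invFun ρ := ⟨ρ.1, O3_orth ρ⟩
  left_inv ρ := rfl
  right_inv ρ := rfl
  continuous_toFun := Continuous.subtype_mk continuous_subtype_val _
  continuous_invFun := Continuous.subtype_mk continuous_subtype_val _

open Pool.Agent.Helper213.Div in
theorem dense_one : Dense {ρ : Iso3 | ∃ M : Pool.Agent.Helper213.Div.O3, OneModTwo M ∧ M.1 = ρ.1} := by
  have := dense_D.preimage homeo.isOpenMap
  refine this.mono ?_
  intro ρ hρ
  exact ⟨homeo ρ, hρ, rfl⟩

open Pool.Agent.Helper213.Div in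
theorem result :
    -- (0) an exact measurable division gives an almost everywhere one
    (∀ ρ τ : Iso3, DividesExactly ρ τ → DividesAE ρ τ) ∧
    -- (1) a division forces an infinite dimensional kernel on polynomial functions
    (∀ ρ τ : Iso3, DividesAE ρ τ → InfiniteKernel ρ τ) ∧
    -- (2) a division forces one of countably many algebraic equations
    (∀ ρ τ : Iso3, DividesAE ρ τ → ∃ d, SingularAt d ρ τ) ∧
    -- (3) for EVERY isometry `ρ` and all `τ` outside a meagre set there is no division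
    (∀ ρ : Iso3, ∀ᶠ τ : Iso3 in residual Iso3, ¬ DividesAE ρ τ) ∧
    -- (4) for EVERY isometry `ρ` and almost every `τ` there is no division
    (∀ ρ : Iso3, ∀ᵐ q : Fin 4 → ℝ, ∀ τ : Iso3,
      (IsRotationOf q τ.1 ∨ IsRotationOf q (-τ.1)) → ¬ DividesAE ρ τ) ∧
    (∀ q : Fin 4 → ℝ, q ≠ 0 → ∃ τ : Iso3, IsRotationOf q τ.1) ∧
    (∀ τ : Iso3, ∃ q : Fin 4 → ℝ, q ≠ 0 ∧ (IsRotationOf q τ.1 ∨ IsRotationOf q (-τ.1))) ∧
    -- (5) for all pairs outside a meagre set there is no division
    (∀ᶠ p : Iso3 × Iso3 in residual (Iso3 × Iso3), ¬ DividesAE p.1 p.2) ∧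
    -- (6) arithmetic obstruction
    (∀ ρ τ : Iso3, UnitReduction ρ τ → ¬ DividesAE ρ τ) ∧
    -- (7) rational case: two of `ρ`, `τ`, `1` congruent modulo 2
    (∀ ρ τ : Iso3, CongruentModTwo ρ τ → ¬ DividesAE ρ τ) ∧
    -- (8) the set of rational `ρ` congruent to 1 modulo 2 is dense
    Dense {ρ : Iso3 | OneModuloTwo ρ} ∧
    -- (9) analytic paths: only countably many parameters can give a division
    (∀ r s : ℝ → Iso3, AnalyticPath r → AnalyticPath s →
      (∃ t₀, TwoAgree (r t₀).1 (s t₀).1 ∨ UnitReduction (r t₀) (s t₀)) →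
      {t | DividesAE (r t) (s t)}.Countable) := by
  have horth : ∀ ρ : Iso3, ρ.1ᵀ * ρ.1 = 1 := fun ρ => O3_orth (tO ρ)
  refine ⟨?_, ?_, ?_, ?_, ?_, ?_, ?_, ?_, ?_, ?_, ?_, ?_⟩
  · rintro ρ τ ⟨A, hA, h1, h2, h3, hU⟩
    refine ⟨A, hA, ?_, ?_, ?_, ?_⟩
    · rw [h1.inter_eq]; exact measure_empty
    · rw [h2.inter_eq]; exact measure_empty
    · rw [h3.inter_eq]; exact measure_empty
    · rw [hU, compl_univ]; exact measure_empty
  · intro ρ τ h
    exact infKer ρ τ h
  · intro ρ τ h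
    by_contra hcon
    push Not at hcon
    exact noDiv ρ τ hcon h
  · intro ρ
    filter_upwards [residual_fiber_of (X := Iso3) O3 (fun τ => τ.1)
      continuous_subtype_val (fun τ => τ.1) homeo (fun _ => rfl) ρ.1
      (dense_fiber_O3 ρ.1 (horth ρ))] with τ hτ
    exact noDiv ρ τ hτ
  · intro ρ
    filter_upwards [ae_fiber ρ.1 (horth ρ), ae_fiber_neg ρ.1 (horth ρ)] with q hq hq' τ hτ
    rcases hτ with hτ | hτ
    · exact noDiv ρ τ (hq τ.1 hτ)
    · refine noDiv ρ τ (hq' τ.1 ?_)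
      have h1 : nq q • (-τ.1) = Qm q := hτ
      rw [← h1, smul_neg, neg_neg]
  · intro q hq
    obtain ⟨τ, hτ⟩ := exists_rot q hq
    exact ⟨homeo.symm (toO3 τ), hτ⟩
  · intro τ
    obtain ⟨q, hq, h1 | h1⟩ := rot_surj_O3 (homeo τ)
    · exact ⟨q, hq, Or.inl h1⟩
    · refine ⟨q, hq, Or.inr ?_⟩
      show nq q • (-τ.1) = Qm q
      have h2 : nq q • τ.1 = -Qm q := h1
      rw [smul_neg, h2, neg_neg]
  · filter_upwards [residual_pair_of (X := Iso3) (fun τ => τ.1) continuous_subtype_val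
      dense_one] with p hp
    exact noDiv p.1 p.2 hp
  · rintro ρ τ ⟨R, k, _, π, g, h, ⟨G, hG, hg⟩, ⟨H, hH, hh⟩, u, hu⟩
    have e1 : G.map π = g := by ext i j; exact hg i j
    have e2 : H.map π = h := by ext i j; exact hh i j
    rw [← e1, ← e2] at hu
    exact noDiv ρ τ (arith_unit R π G H ρ.1 τ.1 (by ext i j; exact hG i j)
      (by ext i j; exact hH i j) u hu)
  · rintro ρ τ ⟨N, G, H, ⟨hN, hG⟩, ⟨_, hH⟩, h⟩
    refine noDiv ρ τ fun d => ?_
    have hz : ∀ (X Y : Matrix (Fin 3) (Fin 3) ℤ), Congr2 X Y →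
        X.map (Int.castRingHom (ZMod 2)) = Y.map (Int.castRingHom (ZMod 2)) := by
      intro X Y hXY
      ext i j
      have h1 : ((X i j - Y i j : ℤ) : ZMod 2) = 0 := by
        rw [ZMod.intCast_zmod_eq_zero_iff_dvd]
        exact (hXY i j).two_dvd
      rw [Int.cast_sub, sub_eq_zero] at h1
      simpa using h1
    have hone : (1 : Matrix (Fin 3) (Fin 3) ℤ).map (Int.castRingHom (ZMod 2)) = 1 :=
      Matrix.map_one _ (map_zero _) (map_one _)
    refine det_of_two_adic d N hN ρ.1 τ.1 G H ?_ ?_ (horth ρ) (horth τ) ?_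
    · ext i j; simpa using hG i j
    · ext i j; simpa using hH i j
    · rcases h with h | h | h
      · exact Or.inl (hz _ _ h)
      · exact Or.inr (Or.inl (by rw [hz _ _ h, hone]))
      · exact Or.inr (Or.inr (by rw [hz _ _ h, hone]))
  · refine dense_one.mono ?_
    rintro ρ ⟨M, ⟨N, G, hN, hG, hG2⟩, hM⟩
    exact ⟨N, G, ⟨hN, fun i j => by rw [← hM]; exact hG i j⟩, hG2⟩
  · rintro r s hr hs ⟨t₀, h0⟩
    have h1 : ∀ d, (Td d (r t₀).1 (s t₀).1).det ≠ 0 := by
      rcases h0 with h | h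
      · have h' : ((r t₀).1 = 1 ∨ (s t₀).1 = 1 ∨ (r t₀).1 = (s t₀).1) ∨
            ((r t₀).1 = -1 ∨ (s t₀).1 = -1 ∨ (r t₀).1 = -(s t₀).1) := by
          rcases h with h | h | h | h | h | h <;> simp [h]
        rcases h' with h' | h'
        · exact det_trivial _ _ (horth _) (horth _) h'
        · exact det_trivial_neg _ _ (horth _) (horth _) h'
      · obtain ⟨R, k, _, π, g, h, ⟨G, hG, hg⟩, ⟨H, hH, hh⟩, u, hu⟩ := h
        have e1 : G.map π = g := by ext i j; exact hg i j
        have e2 : H.map π = h := by ext i j; exact hh i j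
        rw [← e1, ← e2] at hu
        exact arith_unit R π G H _ _ (by ext i j; exact hG i j) (by ext i j; exact hH i j) u hu
    refine (path_countable (fun t => (r t).1) (fun t => (s t).1) hr hs t₀ h1).mono ?_
    intro t ht
    by_contra hcon
    have hcon' : ∀ d, (Td d (r t).1 (s t).1).det ≠ 0 := by
      intro d hd
      exact hcon ⟨d, hd⟩
    exact noDiv _ _ hcon' ht

end Pool.Agent.Results.MP_8c2fb0_lc.MeagreArithmetic
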