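import Mathlib
import Pool.Agent.Zhu.SphThree

/-!
Measurable splittings of the sphere into three congruent pieces: no isometry of order three carries
one piece onto another.
-/

set_option autoImplicit false

namespace Pool.Agent.Results.MP_8c2fb0_lc.NoOrderThree

open MeasureTheory Metric Set

/-- Euclidean space of dimension three. -/
abbrev E : Type := EuclideanSpace ℝ (Fin 3)

/-- The elements of `O_3`, i.e. the isometries of the unit sphere. -/
abbrev O3 : Type := E ≃ₗᵢ[ℝ] E

/-- The unit sphere. -/
def S2 : Set E := sphere 0 1

/-- The surface measure of the unit sphere. -/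
noncomputable def surface : Measure (sphere (0 : E) 1) := (volume : Measure E).toSphere

/-- Lebesgue measurability of a subset of the sphere: measurability for the completion of the
surface measure. -/
def LebesgueMeasurable (A : Set E) : Prop :=
  NullMeasurableSet ((↑) ⁻¹' A : Set (sphere (0 : E) 1)) surface

/-- The image `g A`. -/
def image (g : O3) (A : Set E) : Set E := g '' A

/-- `P 0`, `P 1`, `P 2` are pairwise disjoint, pairwise congruent, Lebesgue measurable subsets of
the sphere whose union is the sphere. -/
structure IsMeasurableSplitting (P : Fin 3 → Set E) : Prop where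
  measurable : ∀ i, LebesgueMeasurable (P i)
  disjoint : ∀ i j, i ≠ j → Disjoint (P i) (P j)
  union : ⋃ i, P i = S2
  congruent : ∀ i j, ∃ g : O3, image g (P i) = P j

/-- No isometry `g` of the sphere with `g ^ 3 = 1` carries one piece of a measurable splitting into
three congruent pieces onto another piece. -/
theorem result (P : Fin 3 → Set E) (hP : IsMeasurableSplitting P) (i j : Fin 3) (hij : i ≠ j)
    (g : O3) (hg : image g (P i) = P j) : ¬ ∀ x, g (g (g x)) = x := by
  intro h3
  have hthird : ∀ i j : Fin 3, ∃ k : Fin 3, k ≠ i ∧ k ≠ j := by decide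
  have hcases : ∀ i j k : Fin 3, i ≠ j → k ≠ i → k ≠ j → ∀ l, l = i ∨ l = j ∨ l = k := by decide
  obtain ⟨k, hki, hkj⟩ := hthird i j
  obtain ⟨s, hs⟩ := hP.congruent i k
  apply SphSplit.order_three g s h3
  have hg' : g '' P i = P j := hg
  have hs' : s '' P i = P k := hs
  have hall := hcases i j k hij hki hkj
  refine ⟨P i, ?_, hP.measurable i, ?_, ?_, ?_, ?_⟩
  · exact (subset_iUnion P i).trans hP.union.subset
  · rw [hg']; exact hP.disjoint i j hij
  · rw [hs']; exact hP.disjoint i k hki.symm
  · rw [hg', hs']; exact hP.disjoint j k hkj.symm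
  · rw [hg', hs']
    have hU : ⋃ l, P l = sphere (0 : E) 1 := hP.union
    rw [← hU]
    ext x
    simp only [mem_union, mem_iUnion]
    constructor
    · rintro ((h | h) | h)
      · exact ⟨i, h⟩
      · exact ⟨j, h⟩
      · exact ⟨k, h⟩
    · rintro ⟨l, h⟩
      rcases hall l with rfl | rfl | rfl
      · exact Or.inl (Or.inl h)
      · exact Or.inl (Or.inr h)
      · exact Or.inr h

end Pool.Agent.Results.MP_8c2fb0_lc.NoOrderThree
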